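import Pool.Agent.H24.RCN.Targets

/-!
# Row IDE of the board on real class numbers: stable ideals come from below
-/

set_option autoImplicit false

open NumberField Pool.Agent.H24.RCN

namespace Pool.Agent.H35.RCN

section

variable {F L : Type} [Field F] [Field L] [Algebra F L]

/-- the ring homomorphism induced by an automorphism -/
noncomputable def hs (σ : L ≃ₐ[F] L) : 𝓞 L →+* 𝓞 L :=
  RingOfIntegers.mapRingHom (σ : L →+* L)

theorem hs_coe (σ : L ≃ₐ[F] L) (x : 𝓞 L) : ((hs σ x : 𝓞 L) : L) = σ (x : L) := rfl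

theorem hs_comp (σ : L ≃ₐ[F] L) :
    (hs σ).comp (algebraMap (𝓞 F) (𝓞 L)) = algebraMap (𝓞 F) (𝓞 L) := by
  ext a
  rw [RingHom.comp_apply, hs_coe]
  have h : ((algebraMap (𝓞 F) (𝓞 L) a : 𝓞 L) : L) = algebraMap F L (a : F) := rfl
  rw [h, AlgEquiv.commutes]

/-- one-sided stability -/
def Sta (σ : L ≃ₐ[F] L) (I : Ideal (𝓞 L)) : Prop :=
  ∀ x y : 𝓞 L, (y : L) = σ (x : L) → x ∈ I → y ∈ I

theorem Sta.pow {σ : L ≃ₐ[F] L} {I : Ideal (𝓞 L)} (h : Sta σ I) (i : ℕ) : Sta (σ ^ i) I := by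
  induction i with
  | zero =>
    intro x y hxy hx
    have : y = x := RingOfIntegers.ext (by simpa using hxy)
    rwa [this]
  | succ i ih =>
    intro x y hxy hx
    have hz : hs (σ ^ i) x ∈ I := ih x _ (hs_coe _ x) hx
    refine h _ y ?_ hz
    rw [hxy, hs_coe, pow_succ', AlgEquiv.mul_apply]

theorem exists_inv [Finite (L ≃ₐ[F] L)] (σ : L ≃ₐ[F] L) (i : ℕ) :
    ∃ j : ℕ, ∀ x : L, (σ ^ i) ((σ ^ j) x) = x := by
  have hn : 0 < orderOf σ := orderOf_pos σ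
  refine ⟨(orderOf σ - 1) * i, fun x => ?_⟩
  rw [← AlgEquiv.mul_apply, ← pow_add]
  have : i + (orderOf σ - 1) * i = orderOf σ * i := by
    obtain ⟨m, hm⟩ := Nat.exists_eq_succ_of_ne_zero hn.ne'
    rw [hm]
    simp only [Nat.succ_sub_one, Nat.succ_eq_add_one]
    ring
  rw [this, pow_mul, pow_orderOf_eq_one, one_pow, AlgEquiv.one_apply]

/-- every element of a stable ideal is the image of an element of the ideal -/
theorem Sta.pre [Finite (L ≃ₐ[F] L)] {σ : L ≃ₐ[F] L} {I : Ideal (𝓞 L)} (h : Sta σ I) (i : ℕ)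
    (y : 𝓞 L) (hy : y ∈ I) : ∃ x ∈ I, (y : L) = (σ ^ i) (x : L) := by
  obtain ⟨j, hj⟩ := exists_inv σ i
  exact ⟨hs (σ ^ j) y, h.pow j y _ (hs_coe _ y) hy, by rw [hs_coe, hj]⟩

theorem Sta.map_eq [Finite (L ≃ₐ[F] L)] {σ : L ≃ₐ[F] L} {I : Ideal (𝓞 L)} (h : Sta σ I) :
    Ideal.map (hs σ) I = I := by
  apply le_antisymm
  · rw [Ideal.map_le_iff_le_comap]
    intro x hx
    exact h x _ (hs_coe _ x) hx
  · intro y hy
    obtain ⟨x, hx, hxy⟩ := h.pre 1 y hy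
    have : y = hs σ x := by
      apply RingOfIntegers.ext
      rw [hs_coe, hxy, pow_one]
    rw [this]
    exact Ideal.mem_map_of_mem _ hx

theorem sta_of_map_eq {σ : L ≃ₐ[F] L} {I : Ideal (𝓞 L)} (h : Ideal.map (hs σ) I = I) :
    Sta σ I := by
  intro x y hxy hx
  have : y = hs σ x := RingOfIntegers.ext (by rw [hs_coe, hxy])
  rw [this, ← h]
  exact Ideal.mem_map_of_mem _ hx

end

theorem pf_IDE (h1 : T_RM1) (h2 : T_RM2) : T_IDE := by
  intro F L _ _ _ _ _ κ σ J hκ hE hU I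
  have : Finite (L ≃ₐ[F] L) := inferInstance
  have hRM1 := h1 F L κ σ J hκ hE hU
  have hRM2 := h2 F L κ σ J hκ hE
  set f := algebraMap (𝓞 F) (𝓞 L) with hf
  refine (_root_.wellFounded_dvdNotUnit (α := Ideal (𝓞 L))).induction (C := fun I =>
    I ≠ ⊥ → (∀ x y : 𝓞 L, (y : L) = σ (x : L) → x ∈ I → y ∈ I) →
      ∃ A : Ideal (𝓞 F), Ideal.map f A = I) I ?_
  intro I ih hI hst
  have hst' : Sta σ I := hst
  by_cases htop : I = ⊤
  · exact ⟨⊤, by rw [Ideal.map_top, htop]⟩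
  obtain ⟨Q, hQm, hQI⟩ := Ideal.exists_le_maximal I htop
  have hQ0 : Q ≠ ⊥ := by
    intro h
    rw [h] at hQI
    exact hI (le_bot_iff.1 hQI)
  have := hQm
  have hpm : (Ideal.comap f Q).IsMaximal := Ideal.isMaximal_comap_of_isIntegral_of_isMaximal Q
  set p := Ideal.comap f Q with hp
  have hp0 : p ≠ ⊥ := fun h => hQ0 (Ideal.eq_bot_of_comap_eq_bot h)
  set P := Ideal.map f p with hP
  have hinj : Function.Injective f := FaithfulSMul.algebraMap_injective (𝓞 F) (𝓞 L)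
  have hP0 : P ≠ ⊥ := by
    intro h
    exact hp0 ((Ideal.map_eq_bot_iff_of_injective hinj).1 h)
  have hPQ : P ≤ Q := Ideal.map_comap_le
  -- the primes above `p`
  have habove : ∀ Q' : Ideal (𝓞 L), Q'.IsPrime → P ≤ Q' → Q' ≠ ⊥ ∧ Ideal.comap f Q' = p := by
    intro Q' hQ' hle
    refine ⟨?_, ?_⟩
    · intro h
      rw [h] at hle
      exact hP0 (le_bot_iff.1 hle)
    · have h3 : p ≤ Ideal.comap f Q' := Ideal.map_le_iff_le_comap.1 hle
      have h4 : Ideal.comap f Q' ≠ ⊤ := Ideal.comap_ne_top f hQ'.ne_top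
      exact (hpm.eq_of_le h4 h3).symm
  -- they contain `I`
  have hcont : ∀ Q' : Ideal (𝓞 L), Q'.IsPrime → P ≤ Q' → I ≤ Q' := by
    intro Q' hQ' hle y hy
    obtain ⟨h3, h4⟩ := habove Q' hQ' hle
    obtain ⟨i, hi⟩ := hRM2 Q Q' hQm.isPrime hQ0 hQ' h3 (by rw [h4])
    obtain ⟨x, hx, hxy⟩ := hst'.pre i y hy
    exact (hi x y hxy).1 (hQI hx)
  -- `P` is squarefree
  have hsq : Squarefree P := by
    intro x hx
    by_contra hux
    rw [Ideal.isUnit_iff] at hux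
    obtain ⟨Q', hQ', hxQ⟩ := Ideal.exists_le_maximal x hux
    have h5 : Q' ^ 2 ∣ P := by
      rw [sq]
      exact (mul_dvd_mul (Ideal.dvd_iff_le.2 hxQ) (Ideal.dvd_iff_le.2 hxQ)).trans hx
    have h6 : P ≤ Q' := by
      rw [← Ideal.dvd_iff_le]
      exact (dvd_pow_self Q' two_ne_zero).trans h5
    obtain ⟨h7, h8⟩ := habove Q' hQ'.isPrime h6
    have h9 := hRM1 Q' hQ'.isPrime h7
    rw [h8] at h9
    exact h9 h5
  -- `P` divides `I`
  have hdvd : P ∣ I := by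
    obtain ⟨n, hn⟩ := P.exists_radical_pow_le_of_fg (IsNoetherian.noetherian _)
    have h5 : P ∣ P.radical := hsq.isRadical n _ (Ideal.dvd_iff_le.2 hn)
    refine h5.trans (Ideal.dvd_iff_le.2 ?_)
    rw [Ideal.radical_eq_sInf]
    apply le_sInf
    rintro Q' ⟨hle, hQ'⟩
    exact hcont Q' hQ' hle
  obtain ⟨I', hI'⟩ := hdvd
  have hI'0 : I' ≠ ⊥ := by
    intro h
    rw [h] at hI'
    apply hI
    rw [hI']
    exact Ideal.mul_bot P
  have hPu : ¬ IsUnit P := by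
    rw [Ideal.isUnit_iff]
    intro h
    rw [h] at hPQ
    exact hQm.ne_top (top_le_iff.1 hPQ)
  have hsP : Ideal.map (hs σ) P = P := by
    rw [hP, Ideal.map_map, hf, hs_comp]
  have hsI' : Ideal.map (hs σ) I' = I' := by
    have h5 := hst'.map_eq
    rw [hI', Ideal.map_mul, hsP] at h5
    exact mul_left_cancel₀ hP0 h5
  obtain ⟨A', hA'⟩ := ih I' ⟨hI'0, P, hPu, by rw [hI', mul_comm]⟩ hI'0
    (fun x y hxy hx => sta_of_map_eq hsI' x y hxy hx)
  exact ⟨p * A', by rw [Ideal.map_mul, hA', hI']⟩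

end Pool.Agent.H35.RCN
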